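import Mathlib
import Pool.Agent.P.MP_5382b1_gt.Core

/-!
A zero-dimensional separable metrizable space which is rigid and sigma-homogeneous, in ZFC.
The space is a subspace `G ∪ D` of the Cantor group, with `G` a subgroup and `D` countable.
-/

open Set Cardinal Topology Filter

namespace Pool.Agent.Results.MP_5382b1_gt.RigidSigmaHomog

open Pool.Agent.P.MP_5382b1_gt

/-- `X` has a base of clopen sets. -/
def ZeroDimensional (X : Type) [TopologicalSpace X] : Prop :=
  ∃ B : Set (Set X), TopologicalSpace.IsTopologicalBasis B ∧ ∀ U ∈ B, IsClopen U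

/-- Any point of `X` can be moved to any other by a homeomorphism of `X` onto itself. -/
def Homogeneous (X : Type) [TopologicalSpace X] : Prop :=
  ∀ x y : X, ∃ h : X ≃ₜ X, h x = y

/-- `X` is the union of countably many homogeneous subspaces. -/
def SigmaHomogeneous (X : Type) [TopologicalSpace X] : Prop :=
  ∃ Y : ℕ → Set X, (⋃ n, Y n) = Set.univ ∧ ∀ n, Homogeneous (Y n)

/-- `X` has at least two points and the identity is its only self-homeomorphism. -/
def Rigid (X : Type) [TopologicalSpace X] : Prop :=
  (∃ x y : X, x ≠ y) ∧ ∀ h : X ≃ₜ X, ∀ x, h x = x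

lemma zeroDimensional_subset (X : Set CantorGrp) : ZeroDimensional X :=
  ⟨_, isTopologicalBasis_subtype isTopologicalBasis_isClopen (· ∈ X), by
    rintro _ ⟨U, hU, rfl⟩
    exact IsClopen.preimage hU continuous_subtype_val⟩

lemma homogeneous_subsingleton {X : Type} [TopologicalSpace X] [Subsingleton X] :
    Homogeneous X := fun _ _ => ⟨Homeomorph.refl X, Subsingleton.elim _ _⟩

lemma homogeneous_submodule (X : Set CantorGrp) (G : Submodule (ZMod 2) CantorGrp)
    (hG : (G : Set CantorGrp) ⊆ X) : Homogeneous {x : X | x.1 ∈ G} := by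
  intro a b
  let t : CantorGrp := a.1.1 + b.1.1
  have ht : t ∈ G := G.add_mem a.2 b.2
  let f : {x : X | x.1 ∈ G} → {x : X | x.1 ∈ G} :=
    fun z => ⟨⟨z.1.1 + t, hG (G.add_mem z.2 ht)⟩, G.add_mem z.2 ht⟩
  have hff : ∀ z, f (f z) = z := by
    intro z
    apply Subtype.ext
    apply Subtype.ext
    change z.1.1 + t + t = z.1.1
    rw [add_assoc, add_self_cg, add_zero]
  have hf : Continuous f := by
    refine Continuous.subtype_mk (Continuous.subtype_mk ?_ _) _
    fun_prop
  refine ⟨⟨⟨f, f, hff, hff⟩, hf, hf⟩, ?_⟩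
  apply Subtype.ext
  apply Subtype.ext
  change a.1.1 + (a.1.1 + b.1.1) = b.1.1
  rw [← add_assoc, add_self_cg, zero_add]

theorem result : ∃ X : Set (ℕ → ZMod 2),
    TopologicalSpace.SeparableSpace X ∧ TopologicalSpace.MetrizableSpace X ∧
      ZeroDimensional X ∧ SigmaHomogeneous X ∧ Rigid X := by
  classical
  let B := TopologicalSpace.countableBasis CantorGrp
  have hB : TopologicalSpace.IsTopologicalBasis B := TopologicalSpace.isBasis_countableBasis _
  have hBc : Countable B := (TopologicalSpace.countable_countableBasis _).to_subtype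
  let C := {F : Set (CantorGrp × CantorGrp) // IsClosed F ∧ Big F}
  let ι := C ⊕ (B × Bool)
  have hι : #ι ≤ 𝔠 := by
    have h1 : #C ≤ 𝔠 := by
      refine le_trans (mk_le_of_injective
        (f := fun F : C => (⟨F.1, F.2.1⟩ : {F // IsClosed F})) ?_) mk_isClosed_le
      intro F F' h
      exact Subtype.ext (Subtype.mk.inj h)
    have h2 : #(B × Bool) ≤ 𝔠 := mk_le_aleph0.trans aleph0_le_continuum
    simp only [ι, mk_sum, lift_id]
    exact add_le_of_le aleph0_le_continuum h1 h2
  let F : ι → Set (CantorGrp × CantorGrp) :=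
    Sum.elim (fun c => c.1) (fun u => u.1.1 ×ˢ u.1.1)
  have hF : ∀ i, Big (F i) := by
    rintro (c | u)
    · exact c.2.2
    · exact big_prod (hB.isOpen u.1.2) (TopologicalSpace.nonempty_of_mem_countableBasis u.1.2)
  obtain ⟨x, y, hxy, hxinj, hy1, hy2⟩ := exists_indep hι F hF
  set G : Submodule (ZMod 2) CantorGrp := Submodule.span (ZMod 2) (range x) with hGdef
  have hxG : ∀ i, x i ∈ G := fun i => Submodule.subset_span ⟨i, rfl⟩
  have hyy : ∀ i j, y i + y j ∈ G → i = j := fun i j h => by
    by_contra hij
    exact hy2 i j hij h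
  let X : Set CantorGrp := (G : Set CantorGrp) ∪ range (fun u : B × Bool => y (Sum.inr u))
  have hGX : (G : Set CantorGrp) ⊆ X := subset_union_left
  obtain ⟨b₀, hb₀, -⟩ := hB.exists_subset_of_mem_open (mem_univ (0 : CantorGrp)) isOpen_univ
  have hBne : Nonempty (B × Bool) := ⟨(⟨b₀, hb₀⟩, true)⟩
  refine ⟨X, inferInstance, inferInstance, zeroDimensional_subset X, ?_, ?_, ?_⟩
  · obtain ⟨e, he⟩ := exists_surjective_nat (B × Bool)
    refine ⟨fun n => Nat.casesOn n {z : X | z.1 ∈ G} (fun m => {z : X | z.1 = y (Sum.inr (e m))}),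
      ?_, ?_⟩
    · refine eq_univ_of_forall fun z => mem_iUnion.2 ?_
      rcases z.2 with hz | ⟨u, hu⟩
      · exact ⟨0, hz⟩
      · obtain ⟨m, rfl⟩ := he u
        exact ⟨m + 1, hu.symm⟩
    · rintro (_ | m)
      · exact homogeneous_submodule X G hGX
      · have : Subsingleton {z : X | z.1 = y (Sum.inr (e m))} :=
          ⟨fun a b => Subtype.ext (Subtype.ext (a.2.trans b.2.symm))⟩
        exact homogeneous_subsingleton
  · obtain ⟨u⟩ := hBne
    refine ⟨⟨0, hGX G.zero_mem⟩, ⟨y (Sum.inr u), Or.inr ⟨u, rfl⟩⟩, fun h => hy1 (Sum.inr u) ?_⟩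
    have : (0 : CantorGrp) = y (Sum.inr u) := congrArg Subtype.val h
    rw [← this]
    exact G.zero_mem
  · intro h
    -- every nonempty open set contains a nonempty open set on which `h` is a translation
    have step1 : ∀ U : Set X, IsOpen U → U.Nonempty → ∃ W : Set X, IsOpen W ∧ W.Nonempty ∧
        W ⊆ U ∧ ∀ a ∈ W, ∀ b ∈ W, a.1 + (h a).1 = b.1 + (h b).1 := by
      intro U hU hUne
      by_contra hcon
      push Not at hcon
      let g : X → CantorGrp × CantorGrp := fun a => (a.1, (h a).1)
      have hg : Continuous g := by fun_prop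
      have hbig : Big (closure (g '' U)) := by
        refine big_closure (hUne.image g) ?_
        rintro O hO ⟨_, hO1, a, ha, rfl⟩
        obtain ⟨p, hp, q, hq, hpq⟩ := hcon (g ⁻¹' O ∩ U) ((hO.preimage hg).inter hU)
          ⟨a, hO1, ha⟩ inter_subset_right
        have hne : p ≠ q := fun e => hpq (by rw [e])
        exact ⟨g p, ⟨hp.1, p, hp.2, rfl⟩, g q, ⟨hq.1, q, hq.2, rfl⟩,
          fun e => hne (Subtype.ext e), fun e => hne (h.injective (Subtype.ext e)), hpq⟩
      let i : ι := Sum.inl ⟨closure (g '' U), isClosed_closure, hbig⟩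
      have hi : (x i, y i) ∈ closure (g '' U) := hxy i
      obtain ⟨s, hs, hlim⟩ := mem_closure_iff_seq_limit.1 hi
      choose a _ ha using hs
      let z : X := ⟨x i, hGX (hxG i)⟩
      have h1 : Tendsto a atTop (𝓝 z) := by
        rw [tendsto_subtype_rng]
        have := (continuous_fst.tendsto _).comp hlim
        refine this.congr fun n => ?_
        simp [← ha n, g]
      have h2 : Tendsto (fun n => (h (a n)).1) atTop (𝓝 (h z).1) :=
        ((continuous_subtype_val.comp h.continuous).tendsto z).comp h1
      have h3 : Tendsto (fun n => (h (a n)).1) atTop (𝓝 (y i)) := by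
        have := (continuous_snd.tendsto _).comp hlim
        refine this.congr fun n => ?_
        simp [← ha n, g]
      have h4 : (h z).1 = y i := tendsto_nhds_unique h2 h3
      rcases (h z).2 with h5 | ⟨u, hu⟩
      · exact hy1 i (h4 ▸ h5)
      · have : i = Sum.inr u := by
          apply hyy
          simp only at hu
          rw [hu, h4, add_self_cg]
          exact G.zero_mem
        exact Sum.inl_ne_inr this
    -- such a translation is trivial
    by_contra hcon
    push Not at hcon
    obtain ⟨W, hW, ⟨w, hw⟩, hWU, hconst⟩ := step1 {a | h a ≠ a}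
      (isOpen_ne_fun h.continuous continuous_id) hcon
    obtain ⟨O, hO, rfl⟩ := isOpen_induced_iff.1 hW
    obtain ⟨b, hb, -, hbO⟩ := hB.exists_subset_of_mem_open (a := w.1) hw hO
    set t : CantorGrp := w.1 + (h w).1 with ht
    have htr : ∀ a : X, a.1 ∈ b → a.1 + t ∈ X := by
      intro a ha
      have h1 := hconst a (hbO ha) w hw
      rw [← ht] at h1
      rw [← h1, ← add_assoc, add_self_cg, zero_add]
      exact (h a).2
    let j : Bool → ι := fun c => Sum.inr (⟨b, hb⟩, c)
    have hxb : ∀ c, x (j c) ∈ b := fun c => (hxy (j c)).1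
    have hyb : ∀ c, y (j c) ∈ b := fun c => (hxy (j c)).2
    have cancel : ∀ a c : CantorGrp, a + c ∈ G → a ∈ G → c ∈ G := by
      intro a c hac ha
      simpa using G.sub_mem hac ha
    have htG : t ∈ G := by
      rcases htr ⟨x (j false), hGX (hxG _)⟩ (hxb _) with h1 | ⟨u, hu⟩
      · exact cancel _ _ h1 (hxG _)
      rcases htr ⟨x (j true), hGX (hxG _)⟩ (hxb _) with h2 | ⟨v, hv⟩
      · exact cancel _ _ h2 (hxG _)
      simp only at hu hv
      have h3 : y (Sum.inr u) + y (Sum.inr v) = x (j false) + x (j true) := by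
        have := add_self_cg t
        rw [hu, hv]
        linear_combination this
      have h4 : (Sum.inr u : ι) = Sum.inr v := hyy _ _ (h3 ▸ G.add_mem (hxG _) (hxG _))
      rw [h4, hv] at hu
      have h5 : j true = j false := hxinj (add_right_cancel hu)
      exact absurd (congrArg Prod.snd (Sum.inr_injective h5)) (by simp)
    have ht0 : t = 0 := by
      rcases htr ⟨y (j true), Or.inr ⟨_, rfl⟩⟩ (hyb _) with h1 | ⟨u, hu⟩
      · exact absurd (cancel _ _ (by rwa [add_comm]) htG) (hy1 (j true))
      · simp only at hu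
        have h2 : y (Sum.inr u) + y (j true) = t := by
          have := add_self_cg (y (j true))
          rw [hu]
          linear_combination this
        have h3 : (Sum.inr u : ι) = j true := hyy _ _ (h2 ▸ htG)
        rw [← h2, h3, add_self_cg]
    apply hWU hw
    apply Subtype.ext
    have := add_self_cg w.1
    linear_combination ht0 - ht - this

end Pool.Agent.Results.MP_5382b1_gt.RigidSigmaHomog
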